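import Mathlib
import Pool.Agent.Helper920.Wild

set_option autoImplicit false

namespace Pool.Agent.Results.MP_cb2a9f_co.SmallerAdmissibleSystem

open Set
open scoped Matroid

variable {S : Type}

/-- Pre-independence space on `W`. -/
structure IsPreIndependenceSpace (W : Set S) (I : Set (Set S)) : Prop where
  subset_ground : ∀ X ∈ I, X ⊆ W
  empty_mem : ∅ ∈ I
  down : ∀ X Y, X ⊆ Y → Y ∈ I → X ∈ I
  augment : ∀ I₁ I₂, I₁ ∈ I → I₂ ∈ I → I₁.Finite → I₂.Finite → I₁.ncard < I₂.ncard →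
    ∃ e ∈ I₂ \ I₁, insert e I₁ ∈ I

/-- Independence space on `W`. -/
structure IsIndependenceSpace (W : Set S) (I : Set (Set S)) : Prop
    extends IsPreIndependenceSpace W I where
  finitary : ∀ Y ⊆ W, (∀ X ⊆ Y, X.Finite → X ∈ I) → Y ∈ I

/-- `B` is a maximal member of `I`. -/
def IsBasis (I : Set (Set S)) (B : Set S) : Prop := Maximal (fun Y => Y ∈ I) B

/-- The restriction of `I` to `Z`. -/
def restr (I : Set (Set S)) (Z : Set S) : Set (Set S) := {Y | Y ⊆ Z ∧ Y ∈ I}

/-- The contraction of `I` to `Z`, computed with the set `B`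
(to be a basis of the restriction to the complement of `Z`). -/
def contr (I : Set (Set S)) (Z B : Set S) : Set (Set S) := {Y | Y ⊆ Z ∧ Y ∪ B ∈ I}

/-- The dual of `I` on `W`. -/
def dual (W : Set S) (I : Set (Set S)) : Set (Set S) := {X | X ⊆ W ∧ ∃ B, IsBasis I B ∧ B ⊆ W \ X}

/-- B-matroid on `W`. -/
structure IsBMatroid (W : Set S) (I : Set (Set S)) : Prop where
  subset_ground : ∀ X ∈ I, X ⊆ W
  empty_mem : ∅ ∈ I
  down : ∀ X Y, X ⊆ Y → Y ∈ I → X ∈ I
  IB1 : ∀ X ⊆ W, ∀ T ∈ I, T ⊆ X → ∃ B, IsBasis (restr I X) B ∧ T ⊆ B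
  IB2 : ∀ X ⊆ W, ∀ B₁ B₂, IsBasis (restr I X) B₁ → IsBasis (restr I X) B₂ →
    ∀ x ∈ B₁ \ B₂, ∃ y ∈ B₂ \ B₁, IsBasis (restr I X) (insert y (B₁ \ {x}))

/-- Admissible system on the infinite set of all points of `S`. -/
structure IsAdmissible (D : Set S → Set (Set (Set S))) : Prop where
  pre : ∀ W, ∀ I ∈ D W, IsPreIndependenceSpace W I
  restr_mem : ∀ Z W, Z ⊆ W → ∀ I ∈ D W, restr I Z ∈ D Z
  contr_exists : ∀ Z W, Z ⊆ W → ∀ I ∈ D W, ∃ B, IsBasis (restr I (W \ Z)) B
  contr_unique : ∀ Z W, Z ⊆ W → ∀ I ∈ D W, ∀ B B', IsBasis (restr I (W \ Z)) B →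
    IsBasis (restr I (W \ Z)) B' → contr I Z B = contr I Z B'
  contr_mem : ∀ Z W, Z ⊆ W → ∀ I ∈ D W, ∀ B, IsBasis (restr I (W \ Z)) B → contr I Z B ∈ D Z
  dual_mem : ∀ W, ∀ I ∈ D W, dual W I ∈ D W
  dual_dual : ∀ W, ∀ I ∈ D W, dual W (dual W I) = I

/-- Every circuit meets every cocircuit in a finite set. -/
def FinMeet (M : Matroid S) : Prop :=
  ∀ C K, M.IsCircuit C → M.IsCocircuit K → (C ∩ K).Finite

/-- The independent sets of a matroid. -/
def indepSets (M : Matroid S) : Set (Set S) := {X | M.Indep X}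

/-- The system used. -/
def D (W : Set S) : Set (Set (Set S)) := {I | ∃ M : Matroid S, M.E = W ∧ indepSets M = I ∧ FinMeet M}

lemma FinMeet.dual {M : Matroid S} (h : FinMeet M) : FinMeet M✶ := by
  intro C K hC hK
  rw [inter_comm]
  exact h K C (by simpa using hK) hC

lemma FinMeet.contract {M : Matroid S} (h : FinMeet M) (X : Set S) : FinMeet (M ／ X) := by
  intro C K hC hK
  obtain ⟨C', hC', h1, _⟩ := hC.exists_subset_isCircuit_of_contract
  exact (h C' K hC' hK.of_contract).subset (inter_subset_inter_left _ h1)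

lemma FinMeet.delete {M : Matroid S} (h : FinMeet M) (X : Set S) : FinMeet (M ＼ X) := by
  have := (h.dual.contract X).dual
  rwa [Matroid.dual_contract_dual] at this

lemma isBasis_indepSets {M : Matroid S} {B : Set S} : IsBasis (indepSets M) B ↔ M.IsBase B := by
  rw [Matroid.isBase_iff_maximal_indep]
  rfl

lemma isBasis_restr_iff {M : Matroid S} {X B : Set S} (hX : X ⊆ M.E) :
    IsBasis (restr (indepSets M) X) B ↔ M.IsBasis B X := by
  constructor
  · intro h
    refine ⟨⟨⟨h.1.2, h.1.1⟩, ?_⟩, hX⟩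
    intro Y hY hBY
    exact h.2 ⟨hY.2, hY.1⟩ hBY
  · intro h
    refine ⟨⟨h.subset, h.indep⟩, ?_⟩
    intro Y hY hBY
    exact (h.eq_of_subset_indep hY.2 hBY hY.1).symm.subset

lemma restr_eq {M : Matroid S} {Z : Set S} (_hZ : Z ⊆ M.E) :
    restr (indepSets M) Z = indepSets (M ＼ (M.E \ Z)) := by
  ext Y
  simp only [restr, indepSets, mem_ofPred_eq, Matroid.delete_indep_iff]
  constructor
  · rintro ⟨h1, h2⟩
    exact ⟨h2, disjoint_left.2 fun x hx hx' => hx'.2 (h1 hx)⟩
  · rintro ⟨h1, h2⟩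
    refine ⟨fun x hx => ?_, h1⟩
    by_contra hxZ
    exact (disjoint_left.1 h2) hx ⟨h1.subset_ground hx, hxZ⟩

lemma contr_eq {M : Matroid S} {Z B : Set S} (_hZ : Z ⊆ M.E)
    (hB : IsBasis (restr (indepSets M) (M.E \ Z)) B) :
    contr (indepSets M) Z B = indepSets (M ／ (M.E \ Z)) := by
  have hB' : M.IsBasis B (M.E \ Z) := (isBasis_restr_iff sdiff_subset).1 hB
  ext Y
  simp only [contr, indepSets, mem_ofPred_eq, hB'.contract_indep_iff]
  constructor
  · rintro ⟨h1, h2⟩
    exact ⟨h2, disjoint_left.2 fun x hx hx' => hx.2 (h1 hx')⟩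
  · rintro ⟨h1, h2⟩
    refine ⟨fun x hx => ?_, h1⟩
    by_contra hxZ
    exact (disjoint_left.1 h2) ⟨h1.subset_ground (Or.inl hx), hxZ⟩ hx

lemma dual_eq (M : Matroid S) : dual M.E (indepSets M) = indepSets M✶ := by
  ext X
  simp only [dual, indepSets, mem_ofPred_eq, Matroid.dual_indep_iff_exists']
  constructor
  · rintro ⟨h1, B, hB, hBX⟩
    refine ⟨h1, B, isBasis_indepSets.1 hB, ?_⟩
    exact disjoint_left.2 fun x hx hx' => (hBX hx').2 hx
  · rintro ⟨h1, B, hB, hBX⟩
    refine ⟨h1, B, isBasis_indepSets.2 hB, ?_⟩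
    exact fun x hx => ⟨hB.subset_ground hx, fun hx' => (disjoint_left.1 hBX) hx' hx⟩

/-- The independent sets of a matroid form a B-matroid. -/
lemma isBMatroid_indepSets (M : Matroid S) : IsBMatroid M.E (indepSets M) where
  subset_ground := fun X hX => hX.subset_ground
  empty_mem := M.empty_indep
  down := fun X Y h hY => hY.subset h
  IB1 := by
    intro X hX T hT hTX
    obtain ⟨B, hB, hTB⟩ := Matroid.Indep.subset_isBasis_of_subset hT hTX
    exact ⟨B, (isBasis_restr_iff hX).2 hB, hTB⟩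
  IB2 := by
    intro X hX B₁ B₂ h1 h2 x hx
    rw [isBasis_restr_iff hX] at h1 h2
    obtain ⟨y, hy, h3⟩ := h1.isBase_restrict.exchange h2.isBase_restrict hx
    refine ⟨y, hy, (isBasis_restr_iff hX).2 ?_⟩
    exact (Matroid.isBase_restrict_iff hX).1 h3

lemma pre_of_matroid (M : Matroid S) : IsPreIndependenceSpace M.E (indepSets M) where
  subset_ground := fun X hX => hX.subset_ground
  empty_mem := M.empty_indep
  down := fun X Y h hY => hY.subset h
  augment := by
    intro I₁ I₂ h1 h2 hf1 hf2 hlt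
    obtain ⟨e, he, h3⟩ := Matroid.Indep.augment (M := M) h1 h2 (by
      rw [← hf1.cast_ncard_eq, ← hf2.cast_ncard_eq]
      exact_mod_cast hlt)
    exact ⟨e, he, h3⟩

lemma isAdmissible_D : IsAdmissible (D : Set S → Set (Set (Set S))) where
  pre := by
    rintro W I ⟨M, rfl, rfl, _⟩
    exact pre_of_matroid M
  restr_mem := by
    rintro Z W hZW I ⟨M, rfl, rfl, hM⟩
    refine ⟨M ＼ (M.E \ Z), ?_, (restr_eq hZW).symm, hM.delete _⟩
    rw [Matroid.delete_ground, sdiff_sdiff_cancel_left hZW]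
  contr_exists := by
    rintro Z W hZW I ⟨M, rfl, rfl, hM⟩
    obtain ⟨B, hB⟩ := M.exists_isBasis (M.E \ Z)
    exact ⟨B, (isBasis_restr_iff sdiff_subset).2 hB⟩
  contr_unique := by
    rintro Z W hZW I ⟨M, rfl, rfl, hM⟩ B B' hB hB'
    rw [contr_eq hZW hB, contr_eq hZW hB']
  contr_mem := by
    rintro Z W hZW I ⟨M, rfl, rfl, hM⟩ B hB
    refine ⟨M ／ (M.E \ Z), ?_, (contr_eq hZW hB).symm, hM.contract _⟩
    rw [Matroid.contract_ground, sdiff_sdiff_cancel_left hZW]
  dual_mem := by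
    rintro W I ⟨M, rfl, rfl, hM⟩
    exact ⟨M✶, rfl, (dual_eq M).symm, hM.dual⟩
  dual_dual := by
    rintro W I ⟨M, rfl, rfl, hM⟩
    rw [dual_eq]
    have := dual_eq M✶
    rw [Matroid.dual_ground, Matroid.dual_dual] at this
    exact this

lemma independenceSpace_mem_D {W : Set S} {I : Set (Set S)} (h : IsIndependenceSpace W I) :
    I ∈ D W := by
  set N : IndepMatroid S := IndepMatroid.ofFinitaryCardAugment W (fun X => X ∈ I) h.empty_mem
    (fun X Y hY hXY => h.down X Y hXY hY)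
    (fun X Y hX hXf hY hYf hlt => by
      obtain ⟨e, he, h1⟩ := h.augment X Y hX hY hXf hYf hlt
      exact ⟨e, he.1, he.2, h1⟩)
    (fun X hX => h.finitary X (fun x hx => h.subset_ground {x}
      (hX {x} (singleton_subset_iff.2 hx) (finite_singleton x)) rfl) hX)
    (fun X hX => h.subset_ground X hX) with hN
  refine ⟨N.matroid, rfl, ?_, ?_⟩
  · ext X
    exact Iff.rfl
  · intro C K hC _
    have hfin : N.matroid.Finitary := by
      rw [hN]; infer_instance
    exact hC.finite.subset inter_subset_left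

/-- For every infinite set `S` there is an admissible system which contains all independence spaces
but omits some B-matroid. -/
theorem result : ∀ (S : Type) [Infinite S], ∃ D : Set S → Set (Set (Set S)),
    IsAdmissible D ∧ (∀ W I, IsIndependenceSpace W I → I ∈ D W) ∧
    ∃ W I, IsBMatroid W I ∧ I ∉ D W := by
  intro S _
  refine ⟨D, isAdmissible_D, fun W I h => independenceSpace_mem_D h, ?_⟩
  obtain ⟨M, C, K, hC, hK, hinf⟩ := Pool.Agent.Helper920.Wild.exists_wild S
  refine ⟨M.E, indepSets M, isBMatroid_indepSets M, ?_⟩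
  rintro ⟨M', hE, hI, hM'⟩
  have : M' = M := by
    apply Matroid.ext_indep hE
    intro X _
    have h1 : X ∈ indepSets M' ↔ X ∈ indepSets M := by rw [hI]
    exact h1
  subst this
  exact hinf (hM' C K hC hK)

end Pool.Agent.Results.MP_cb2a9f_co.SmallerAdmissibleSystem
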